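import Pool.Agent.Results.MP_5bb885_an.AllTonelliAE

/-!
The former hand-in `AllSurfacesAE`, derived from `AllTonelliAE`, and the form in which the second
derivative is only assumed Lipschitz near almost every point.
-/

namespace Pool.Agent.Variants.MP_5bb885_an.AllSurfacesAE

open Pool.Agent.Lib.MP_5bb885_an.Gen UpperHalfPlane MeasureTheory

open scoped MatrixGroups

theorem result_ae (Γ : Type) [Group Γ] [MulAction Γ ℍ] [ProperlyDiscontinuousSMul Γ ℍ]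
    [CompactSpace (MulAction.orbitRel.Quotient Γ ℍ)]
    (hfree : ∀ (γ : Γ) (z : ℍ), γ • z = z → γ = 1)
    (hmob : ∀ γ : Γ, ∃ g : GL (Fin 2) ℝ, ∀ z : ℍ, γ • z = g • z)
    (L : ℂ × ℂ → ℝ) (hL : Tonelli Γ L)
    (hlip : ∀ᵐ p : ℂ × ℂ ∂volume, p ∈ TH → ∃ K, ∃ s ∈ nhds p, LipschitzOnWith K (D2 L) s) :
    ∃ b : ℕ, Nonempty ((Fin b → ℝ) ≃ₗ[ℝ] Coh Γ) ∧ ∃ O : ℕ → Set (ℂ → ℝ),
      (∀ n, OpenDense Γ (O n)) ∧ ∀ f, Pot Γ f → (∀ n, f ∈ O n) →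
        ∀ e : (Fin b → ℝ) ≃ₗ[ℝ] Coh Γ, ∀ᵐ t ∂volume, Good Γ (addP L f) (e t : Γ → ℝ) :=
  Pool.Agent.Results.MP_5bb885_an.AllTonelliAE.result Γ hfree hmob L hL
    (hlip.mono fun _ hp _ _ _ x _ _ _ _ h =>
      Or.inr ⟨0, by rw [h]; exact hp (h ▸ jet_mem x 0)⟩)

theorem result (Γ : Type) [Group Γ] [MulAction Γ ℍ] [ProperlyDiscontinuousSMul Γ ℍ]
    [CompactSpace (MulAction.orbitRel.Quotient Γ ℍ)]
    (hfree : ∀ (γ : Γ) (z : ℍ), γ • z = z → γ = 1)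
    (hmob : ∀ γ : Γ, ∃ g : GL (Fin 2) ℝ, ∀ z : ℍ, γ • z = g • z)
    (L : ℂ × ℂ → ℝ) (hL : Tonelli Γ L) (hlip : LocallyLipschitzOn TH (D2 L)) :
    ∃ b : ℕ, Nonempty ((Fin b → ℝ) ≃ₗ[ℝ] Coh Γ) ∧ ∃ O : ℕ → Set (ℂ → ℝ),
      (∀ n, OpenDense Γ (O n)) ∧ ∀ f, Pot Γ f → (∀ n, f ∈ O n) →
        ∀ e : (Fin b → ℝ) ≃ₗ[ℝ] Coh Γ, ∀ᵐ t ∂volume, Good Γ (addP L f) (e t : Γ → ℝ) := by
  refine result_ae Γ hfree hmob L hL (Filter.Eventually.of_forall fun p hp => ?_)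
  obtain ⟨K, s, hs, hK⟩ := hlip hp
  have ho : IsOpen TH := isOpen_lt continuous_const (by fun_prop)
  exact ⟨K, s, by rwa [ho.nhdsWithin_eq hp] at hs, hK⟩

end Pool.Agent.Variants.MP_5bb885_an.AllSurfacesAE
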