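import Pool.Agent.FS.HyperbolicDim.Main

namespace Pool.Agent.Variants.MP_5bb885_an.HyperbolicDim

open Pool.Agent.Lib.MP_5bb885_an UpperHalfPlane MeasureTheory

open scoped MatrixGroups

theorem result (Γ : Subgroup SL(2, ℝ)) [DiscreteTopology Γ]
    [CompactSpace (MulAction.orbitRel.Quotient Γ ℍ)] :
    ∃ b : ℕ, Nonempty ((Fin b → ℝ) ≃ₗ[ℝ] Coh Γ) ∧
    ∀ e : (Fin b → ℝ) ≃ₗ[ℝ] Coh Γ, ∃ Z : Set (Fin b → ℝ), IsClosed Z ∧ dimH Z ≤ (b - 1 : ℕ) ∧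
      ∀ t, t ∉ Z → ∀ U : ℍ → ℝ,
      (∀ (γ : Γ) (z : ℍ), U ((γ : SL(2, ℝ)) • z) = U z + (e t : Γ → ℝ) γ) →
      ∃ (S : Finset SL(2, ℝ)) (v : ℝ) (ρ : (Γ → ℝ) → ℝ), S.Nonempty ∧ 0 < v ∧
        (∀ x : ℝ → ℍ, Static Γ U x ↔
          ∃ γ ∈ Γ, ∃ g ∈ S, ∃ s₀ : ℝ, ∀ s, x s = γ • geo g (v * (s + s₀))) ∧
        ∀ g ∈ S, ∃ (γ : Γ) (T : ℝ), 0 < T ∧
          (∀ s, geo g (v * (s + T)) = (γ : SL(2, ℝ)) • geo g (v * s)) ∧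
          ∀ φ ∈ Coh Γ, φ γ = T * ρ φ :=
  let ⟨b, hb⟩ := fu_of.dim (Γ := Γ)
  ⟨b, hb, fun e =>
    let ⟨Z, h1, h2, h3⟩ := Pool.Agent.FS.HyperbolicDim.good_off fu_of e
    ⟨Z, h1, h2, fun t ht _ hU => (h3 t ht).aubry fu_of (e t).2 hU⟩⟩

end Pool.Agent.Variants.MP_5bb885_an.HyperbolicDim
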