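import Pool.Agent.Results.MP_5bb885_an.AllTonelliAE

/-!
The former hand-in `OrientableAE`, derived from `AllTonelliAE`: on an orientable surface the
extra hypothesis is void.
-/

namespace Pool.Agent.Variants.MP_5bb885_an.OrientableAE

open Pool.Agent.Lib.MP_5bb885_an.Gen UpperHalfPlane MeasureTheory

open scoped MatrixGroups

theorem result (Γ : Type) [Group Γ] [MulAction Γ ℍ] [ProperlyDiscontinuousSMul Γ ℍ]
    [CompactSpace (MulAction.orbitRel.Quotient Γ ℍ)]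
    (hfree : ∀ (γ : Γ) (z : ℍ), γ • z = z → γ = 1)
    (hmob : ∀ γ : Γ, ∃ g : SL(2, ℝ), ∀ z : ℍ, γ • z = g • z)
    (L : ℂ × ℂ → ℝ) (hL : Tonelli Γ L) :
    ∃ b : ℕ, Nonempty ((Fin b → ℝ) ≃ₗ[ℝ] Coh Γ) ∧ ∃ O : ℕ → Set (ℂ → ℝ),
      (∀ n, OpenDense Γ (O n)) ∧ ∀ f, Pot Γ f → (∀ n, f ∈ O n) →
        ∀ e : (Fin b → ℝ) ≃ₗ[ℝ] Coh Γ, ∀ᵐ t ∂volume, Good Γ (addP L f) (e t : Γ → ℝ) :=
  Pool.Agent.Results.MP_5bb885_an.AllTonelliAE.result Γ hfree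
    (fun γ => (hmob γ).elim fun g hg => ⟨g, hg⟩) L hL
    (Filter.Eventually.of_forall fun _ _ _ γ _ _ _ _ _ _ => Or.inl (hmob γ))

end Pool.Agent.Variants.MP_5bb885_an.OrientableAE
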